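import Mathlib
import Pool.Agent.U398.MV.Stm

set_option autoImplicit false

/-!
# Project MV, package PP: mean square of the prime side
-/

namespace Pool.Agent.U139.MV.PP

open MeasureTheory Filter Topology Set Complex

noncomputable section

open ArithmeticFunction (vonMangoldt)

/-! ## Chebyshev weights -/

lemma abel (K : ℝ) (a w : ℕ → ℝ) (hw : Antitone w) (hw0 : ∀ n, 0 ≤ w n)
    (ha : ∀ N : ℕ, ∑ n ∈ Finset.range N, a n ≤ K * N) (N : ℕ) :
    ∑ n ∈ Finset.range N, a n * w n ≤ K * ∑ n ∈ Finset.range N, w n := by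
  have key : ∀ N : ℕ, 0 ≤ K * ∑ n ∈ Finset.range N, w n - ∑ n ∈ Finset.range N, a n * w n -
      (K * N - ∑ n ∈ Finset.range N, a n) * w N := by
    intro N
    induction N with
    | zero => simp
    | succ N ih =>
      have h1 := ha (N + 1)
      have h2 : w (N + 1) ≤ w N := hw (Nat.le_succ N)
      have h3 : 0 ≤ (K * ((N + 1 : ℕ) : ℝ) - ∑ n ∈ Finset.range (N + 1), a n) *
        (w N - w (N + 1)) := mul_nonneg (by linarith) (by linarith)
      rw [Finset.sum_range_succ] at h3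
      rw [Finset.sum_range_succ, Finset.sum_range_succ, Finset.sum_range_succ]
      push_cast at h3 ⊢
      nlinarith [ih, h3]
  have h1 := key N
  have h2 : 0 ≤ (K * N - ∑ n ∈ Finset.range N, a n) * w N :=
    mul_nonneg (by linarith [ha N]) (hw0 N)
  linarith

/-- the Chebyshev constant -/
def K0 : ℝ := Real.log 4 + 4

lemma K0_pos : 0 < K0 := by
  have : 0 < Real.log 4 := Real.log_pos (by norm_num)
  unfold K0; linarith

lemma psi_range (N : ℕ) :
    ∑ n ∈ Finset.range N, vonMangoldt (n + 1) ≤ K0 * N := by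
  have h := Chebyshev.psi_le_const_mul_self (x := (N : ℝ)) (Nat.cast_nonneg N)
  have h2 : Chebyshev.psi (N : ℝ) = ∑ n ∈ Finset.range N, vonMangoldt (n + 1) := by
    unfold Chebyshev.psi
    rw [Nat.floor_natCast]
    clear h
    induction N with
    | zero => simp
    | succ N ih => rw [Finset.sum_Ioc_succ_top (Nat.zero_le N), ih, Finset.sum_range_succ]
  rw [h2] at h
  exact h

/-- the weights -/
def ww (X : ℝ) (n : ℕ) : ℝ := 4 * X / (X + (n + 1)) ^ 2

lemma ww_nonneg {X : ℝ} (hX : 0 < X) (n : ℕ) : 0 ≤ ww X n := by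
  unfold ww; positivity

lemma ww_anti {X : ℝ} (hX : 0 < X) : Antitone (ww X) := by
  intro m n hmn
  unfold ww
  have : (m : ℝ) ≤ n := by exact_mod_cast hmn
  gcongr

lemma ww_sum {X : ℝ} (hX : 0 < X) (N : ℕ) : ∑ n ∈ Finset.range N, ww X n ≤ 4 := by
  have key : ∀ N : ℕ, ∑ n ∈ Finset.range N, ww X n ≤ 4 * X * (1 / X - 1 / (X + N)) := by
    intro N
    induction N with
    | zero => simp
    | succ N ih =>
      rw [Finset.sum_range_succ]
      have h : ww X N ≤ 4 * X * (1 / (X + N) - 1 / (X + (N + 1))) := by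
        unfold ww
        have h1 : 0 < X + N := by positivity
        have h2 : 0 < X + (N + 1) := by positivity
        have h3 : 1 / (X + N) - 1 / (X + (N + 1)) = 1 / ((X + N) * (X + (N + 1))) := by
          field_simp
          ring
        rw [h3, mul_one_div]
        apply div_le_div_of_nonneg_left (by positivity) (by positivity)
        rw [sq]
        apply mul_le_mul_of_nonneg_right _ h2.le
        linarith
      push_cast
      nlinarith [ih, h]
  have h := key N
  have h1 : 0 < X + N := by positivity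
  have h2 : 0 ≤ 1 / (X + N) := by positivity
  have h3 : 4 * X * (1 / X - 1 / (X + N)) = 4 - 4 * X * (1 / (X + N)) := by
    field_simp
  rw [h3] at h
  have h4 : 0 ≤ 4 * X * (1 / (X + N)) := by positivity
  linarith

/-- the basic weights at `u` -/
def EE (u : ℝ) (n : ℕ) : ℝ := vonMangoldt n * (n : ℝ)⁻¹ * Real.exp (-|u - Real.log n|)

lemma EE_nonneg (u : ℝ) (n : ℕ) : 0 ≤ EE u n := by
  unfold EE
  have : 0 ≤ vonMangoldt n := ArithmeticFunction.vonMangoldt_nonneg
  positivity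

lemma EE_zero (u : ℝ) : EE u 0 = 0 := by
  unfold EE; simp

lemma exp_abs_le (u : ℝ) (n : ℕ) :
    ((n + 1 : ℕ) : ℝ)⁻¹ * Real.exp (-|u - Real.log ((n + 1 : ℕ) : ℝ)|) ≤ ww (Real.exp u) n := by
  set m : ℝ := ((n + 1 : ℕ) : ℝ) with hm
  have hm0 : 0 < m := by rw [hm]; positivity
  set X := Real.exp u with hX
  have hX0 : 0 < X := Real.exp_pos u
  have hmm : m = (n : ℝ) + 1 := by rw [hm]; push_cast; ring
  unfold ww
  rw [← hmm]
  rcases le_total (Real.log m) u with h | h
  · rw [abs_of_nonneg (by linarith)]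
    have h1 : Real.exp (-(u - Real.log m)) = m / X := by
      rw [neg_sub, Real.exp_sub, Real.exp_log hm0]
    have hle : m ≤ X := by
      rw [← Real.exp_log hm0]; exact Real.exp_le_exp.mpr h
    rw [h1]
    have h2 : m⁻¹ * (m / X) = 1 / X := by field_simp
    rw [h2, div_le_div_iff₀ hX0 (by positivity)]
    nlinarith
  · rw [abs_of_nonpos (by linarith)]
    have h1 : Real.exp (-(-(u - Real.log m))) = X / m := by
      rw [neg_neg, Real.exp_sub, Real.exp_log hm0]
    have hle : X ≤ m := by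
      rw [← Real.exp_log hm0]; exact Real.exp_le_exp.mpr h
    rw [h1]
    have h2 : m⁻¹ * (X / m) = X / m ^ 2 := by field_simp
    rw [h2, div_le_div_iff₀ (by positivity) (by positivity)]
    have h3 : (X + m) ^ 2 ≤ 4 * m ^ 2 := by nlinarith
    nlinarith

lemma EE_range (u : ℝ) (N : ℕ) : ∑ n ∈ Finset.range N, EE u n ≤ 4 * K0 := by
  have h1 : ∑ n ∈ Finset.range N, EE u n ≤ ∑ n ∈ Finset.range (N + 1), EE u n := by
    rw [Finset.sum_range_succ]; linarith [EE_nonneg u N]
  have h2 : ∑ n ∈ Finset.range (N + 1), EE u n = ∑ n ∈ Finset.range N, EE u (n + 1) := by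
    rw [Finset.sum_range_succ', EE_zero, add_zero]
  have h3 : ∑ n ∈ Finset.range N, EE u (n + 1) ≤
      ∑ n ∈ Finset.range N, vonMangoldt (n + 1) * ww (Real.exp u) n := by
    apply Finset.sum_le_sum
    intro n _
    unfold EE
    rw [mul_assoc]
    exact mul_le_mul_of_nonneg_left (exp_abs_le u n) ArithmeticFunction.vonMangoldt_nonneg
  have h4 := abel K0 (fun n => vonMangoldt (n + 1)) (ww (Real.exp u)) (ww_anti (Real.exp_pos u))
    (ww_nonneg (Real.exp_pos u)) psi_range N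
  have h5 := mul_le_mul_of_nonneg_left (ww_sum (Real.exp_pos u) N) K0_pos.le
  linarith

lemma EE_summable (u : ℝ) : Summable (EE u) :=
  summable_of_sum_range_le (EE_nonneg u) (EE_range u)

lemma EE_tsum (u : ℝ) : ∑' n, EE u n ≤ 4 * K0 :=
  Real.tsum_le_of_sum_range_le (EE_nonneg u) (EE_range u)

/-! ## The coefficients -/

/-- coefficients of `Pf` -/
def aa (u : ℝ) (n : ℕ) : ℝ :=
  vonMangoldt n * (Real.sqrt n)⁻¹ * Real.exp (-(u - Real.log n) ^ 2 / 2)

lemma aa_nonneg (u : ℝ) (n : ℕ) : 0 ≤ aa u n := by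
  unfold aa
  have : 0 ≤ vonMangoldt n := ArithmeticFunction.vonMangoldt_nonneg
  positivity

lemma aa_zero (u : ℝ) : aa u 0 = 0 := by
  unfold aa; simp

lemma sqrt_exp {m : ℝ} (hm : 0 < m) : Real.sqrt m = Real.exp (Real.log m / 2) := by
  rw [Real.exp_half, Real.exp_log hm]

lemma aa_le (u : ℝ) (n : ℕ) : aa u n ≤ Real.exp (9 / 8) * Real.exp (u / 2) * EE u n := by
  rcases Nat.eq_zero_or_pos n with rfl | hn
  · rw [aa_zero, EE_zero, mul_zero]
  have hm : (0 : ℝ) < n := by exact_mod_cast hn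
  unfold aa EE
  have hL : 0 ≤ vonMangoldt n := ArithmeticFunction.vonMangoldt_nonneg
  have h1 : (Real.sqrt n)⁻¹ * Real.exp (-(u - Real.log n) ^ 2 / 2) ≤
      Real.exp (9 / 8) * Real.exp (u / 2) * ((n : ℝ)⁻¹ * Real.exp (-|u - Real.log n|)) := by
    rw [sqrt_exp hm, ← Real.exp_neg]
    have h2 : (n : ℝ)⁻¹ = Real.exp (-Real.log n) := by
      rw [Real.exp_neg, Real.exp_log hm]
    rw [h2, ← Real.exp_add, ← Real.exp_add, ← Real.exp_add, ← Real.exp_add, Real.exp_le_exp]
    set v := u - Real.log n with hv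
    have hlog : Real.log n = u - v := by rw [hv]; ring
    rw [hlog]
    rcases abs_cases v with ⟨h, h'⟩ | ⟨h, h'⟩ <;> rw [h] <;> nlinarith [sq_nonneg (v - 3 / 2), sq_nonneg (v + 3 / 2)]
  calc vonMangoldt n * (Real.sqrt n)⁻¹ * Real.exp (-(u - Real.log n) ^ 2 / 2)
      = vonMangoldt n * ((Real.sqrt n)⁻¹ * Real.exp (-(u - Real.log n) ^ 2 / 2)) := by ring
    _ ≤ vonMangoldt n * (Real.exp (9 / 8) * Real.exp (u / 2) *
          ((n : ℝ)⁻¹ * Real.exp (-|u - Real.log n|))) := mul_le_mul_of_nonneg_left h1 hL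
    _ = _ := by ring

lemma naa_le (u : ℝ) (n : ℕ) :
    n * aa u n ≤ Real.exp (25 / 8) * Real.exp (3 * u / 2) * EE u n := by
  rcases Nat.eq_zero_or_pos n with rfl | hn
  · rw [aa_zero, EE_zero, mul_zero, mul_zero]
  have hm : (0 : ℝ) < n := by exact_mod_cast hn
  unfold aa EE
  have hL : 0 ≤ vonMangoldt n := ArithmeticFunction.vonMangoldt_nonneg
  have h1 : (n : ℝ) * ((Real.sqrt n)⁻¹ * Real.exp (-(u - Real.log n) ^ 2 / 2)) ≤
      Real.exp (25 / 8) * Real.exp (3 * u / 2) * ((n : ℝ)⁻¹ * Real.exp (-|u - Real.log n|)) := by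
    rw [sqrt_exp hm, ← Real.exp_neg]
    have h2 : (n : ℝ)⁻¹ = Real.exp (-Real.log n) := by
      rw [Real.exp_neg, Real.exp_log hm]
    rw [h2]
    nth_rewrite 1 [← Real.exp_log hm]
    rw [← Real.exp_add, ← Real.exp_add, ← Real.exp_add, ← Real.exp_add, ← Real.exp_add,
      Real.exp_le_exp]
    set v := u - Real.log n with hv
    have hlog : Real.log n = u - v := by rw [hv]; ring
    rw [hlog]
    rcases abs_cases v with ⟨h, h'⟩ | ⟨h, h'⟩ <;> rw [h] <;> nlinarith [sq_nonneg (v - 5 / 2), sq_nonneg (v + 5 / 2)]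
  calc (n : ℝ) * (vonMangoldt n * (Real.sqrt n)⁻¹ * Real.exp (-(u - Real.log n) ^ 2 / 2))
      = vonMangoldt n * ((n : ℝ) * ((Real.sqrt n)⁻¹ * Real.exp (-(u - Real.log n) ^ 2 / 2))) := by ring
    _ ≤ vonMangoldt n * (Real.exp (25 / 8) * Real.exp (3 * u / 2) *
          ((n : ℝ)⁻¹ * Real.exp (-|u - Real.log n|))) := mul_le_mul_of_nonneg_left h1 hL
    _ = _ := by ring

lemma aa_summable (u : ℝ) : Summable (aa u) :=
  Summable.of_nonneg_of_le (aa_nonneg u) (aa_le u) ((EE_summable u).mul_left _)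

lemma naa_summable (u : ℝ) : Summable (fun n : ℕ => (n : ℝ) * aa u n) :=
  Summable.of_nonneg_of_le (fun n => mul_nonneg (Nat.cast_nonneg n) (aa_nonneg u n)) (naa_le u)
    ((EE_summable u).mul_left _)

lemma aa_tsum (u : ℝ) : ∑' n, aa u n ≤ Real.exp (9 / 8) * Real.exp (u / 2) * (4 * K0) := by
  calc ∑' n, aa u n ≤ ∑' n, Real.exp (9 / 8) * Real.exp (u / 2) * EE u n :=
        (aa_summable u).tsum_le_tsum (aa_le u) ((EE_summable u).mul_left _)
    _ = Real.exp (9 / 8) * Real.exp (u / 2) * ∑' n, EE u n := tsum_mul_left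
    _ ≤ _ := mul_le_mul_of_nonneg_left (EE_tsum u) (by positivity)

lemma naa_tsum (u : ℝ) :
    ∑' n : ℕ, (n : ℝ) * aa u n ≤ Real.exp (25 / 8) * Real.exp (3 * u / 2) * (4 * K0) := by
  calc ∑' n : ℕ, (n : ℝ) * aa u n ≤ ∑' n, Real.exp (25 / 8) * Real.exp (3 * u / 2) * EE u n :=
        (naa_summable u).tsum_le_tsum (naa_le u) ((EE_summable u).mul_left _)
    _ = Real.exp (25 / 8) * Real.exp (3 * u / 2) * ∑' n, EE u n := tsum_mul_left
    _ ≤ _ := mul_le_mul_of_nonneg_left (EE_tsum u) (by positivity)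

lemma aa_sq (u : ℝ) (n : ℕ) :
    aa u n ^ 2 = (vonMangoldt n) ^ 2 / n * Real.exp (-(u - Real.log n) ^ 2) := by
  unfold aa
  rw [mul_pow, mul_pow, inv_pow, Real.sq_sqrt (Nat.cast_nonneg n), ← Real.exp_nat_mul,
    div_eq_mul_inv]
  congr 2
  push_cast
  ring

lemma aa_sq_le {u : ℝ} (hu : 0 ≤ u) (n : ℕ) : aa u n ^ 2 ≤ Real.exp 1 * (1 + u) * EE u n := by
  rcases Nat.eq_zero_or_pos n with rfl | hn
  · rw [aa_zero, EE_zero]; simp
  have hm : (0 : ℝ) < n := by exact_mod_cast hn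
  rw [aa_sq]
  unfold EE
  have hL : 0 ≤ vonMangoldt n := ArithmeticFunction.vonMangoldt_nonneg
  have hL2 : vonMangoldt n ≤ Real.log n := ArithmeticFunction.vonMangoldt_le_log
  set v := u - Real.log n with hv
  have hlog : Real.log n = u - v := by rw [hv]; ring
  have h1 : Real.log n ≤ (1 + u) * Real.exp |v| := by
    have h2 : 1 + |v| ≤ Real.exp |v| := by linarith [Real.add_one_le_exp |v|]
    have h3 : u - v ≤ (1 + u) * (1 + |v|) := by
      nlinarith [neg_abs_le v, abs_nonneg v]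
    rw [hlog]
    exact h3.trans (mul_le_mul_of_nonneg_left h2 (by linarith))
  have h4 : Real.exp |v| * Real.exp (-v ^ 2) ≤ Real.exp 1 * Real.exp (-|v|) := by
    rw [← Real.exp_add, ← Real.exp_add, Real.exp_le_exp]
    nlinarith [sq_nonneg (|v| - 1), sq_abs v]
  have hn' : 0 ≤ (n : ℝ)⁻¹ := by positivity
  calc (vonMangoldt n) ^ 2 / n * Real.exp (-v ^ 2)
      = vonMangoldt n * (n : ℝ)⁻¹ * (vonMangoldt n * Real.exp (-v ^ 2)) := by
        rw [div_eq_mul_inv]; ring
    _ ≤ vonMangoldt n * (n : ℝ)⁻¹ * ((1 + u) * Real.exp |v| * Real.exp (-v ^ 2)) := by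
        apply mul_le_mul_of_nonneg_left _ (mul_nonneg hL hn')
        apply mul_le_mul_of_nonneg_right (hL2.trans h1) (Real.exp_pos _).le
    _ = vonMangoldt n * (n : ℝ)⁻¹ * (1 + u) * (Real.exp |v| * Real.exp (-v ^ 2)) := by ring
    _ ≤ vonMangoldt n * (n : ℝ)⁻¹ * (1 + u) * (Real.exp 1 * Real.exp (-|v|)) := by
        apply mul_le_mul_of_nonneg_left h4
        exact mul_nonneg (mul_nonneg hL hn') (by linarith)
    _ = _ := by ring

/-! ## Continuity -/

lemma aa_cont (n : ℕ) : Continuous fun u : ℝ => aa u n := by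
  unfold aa; fun_prop

lemma aa_crude {R u : ℝ} (_hR : 0 ≤ R) (hu : |u| ≤ R) (n : ℕ) :
    aa u n ≤ Real.exp ((R + 2) ^ 2 / 2) * (1 / (n : ℝ) ^ (3 / 2 : ℝ)) := by
  rcases Nat.eq_zero_or_pos n with rfl | hn
  · rw [aa_zero]; positivity
  have hm : (0 : ℝ) < n := by exact_mod_cast hn
  have hm1 : (1 : ℝ) ≤ n := by exact_mod_cast hn
  have hlog0 : 0 ≤ Real.log n := Real.log_nonneg hm1
  unfold aa
  have hL : 0 ≤ vonMangoldt n := ArithmeticFunction.vonMangoldt_nonneg
  have hL2 : vonMangoldt n ≤ Real.log n := ArithmeticFunction.vonMangoldt_le_log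
  have hL3 : vonMangoldt n ≤ Real.exp (Real.log n) := by
    linarith [Real.add_one_le_exp (Real.log n)]
  have h3 : 1 / (n : ℝ) ^ (3 / 2 : ℝ) = Real.exp (-(3 / 2 * Real.log n)) := by
    rw [Real.rpow_def_of_pos hm, one_div, ← Real.exp_neg, mul_comm (Real.log n)]
  have hs : (Real.sqrt n)⁻¹ = Real.exp (-(Real.log n / 2)) := by
    rw [sqrt_exp hm, Real.exp_neg]
  rw [h3, hs]
  calc vonMangoldt n * Real.exp (-(Real.log n / 2)) * Real.exp (-(u - Real.log n) ^ 2 / 2)
      ≤ Real.exp (Real.log n) * Real.exp (-(Real.log n / 2)) *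
          Real.exp (-(u - Real.log n) ^ 2 / 2) := by gcongr
    _ ≤ _ := by
        rw [← Real.exp_add, ← Real.exp_add, ← Real.exp_add, Real.exp_le_exp]
        have hu1 : u ≤ R := (abs_le.mp hu).2
        nlinarith [sq_nonneg (Real.log n - (R + 2)), sq_nonneg u, mul_nonneg hlog0 (sub_nonneg.mpr hu1)]

lemma rpow_summable : Summable fun n : ℕ => 1 / (n : ℝ) ^ (3 / 2 : ℝ) :=
  Real.summable_one_div_nat_rpow.mpr (by norm_num)

/-- the terms of `Pf` -/
def pt (u t : ℝ) (n : ℕ) : ℂ :=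
  ((ArithmeticFunction.vonMangoldt n : ℝ) : ℂ) * (Real.sqrt n : ℂ)⁻¹ *
    cexp (I * t * (u - Real.log n)) * Real.exp (-(u - Real.log n) ^ 2 / 2)

lemma pt_eq (u t : ℝ) (n : ℕ) :
    pt u t n = (aa u n : ℂ) * cexp ((t * (u - Real.log n) : ℝ) * I) := by
  unfold pt aa
  have : I * (t : ℂ) * ((u : ℂ) - ((Real.log n : ℝ) : ℂ)) = ((t * (u - Real.log n) : ℝ) : ℂ) * I := by
    push_cast
    ring
  rw [this]
  push_cast
  ring

lemma pt_norm (u t : ℝ) (n : ℕ) : ‖pt u t n‖ = aa u n := by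
  rw [pt_eq, norm_mul, Complex.norm_exp_ofReal_mul_I, mul_one, Complex.norm_real,
    Real.norm_of_nonneg (aa_nonneg u n)]

lemma pt_cont (n : ℕ) : Continuous fun p : ℝ × ℝ => pt p.1 p.2 n := by
  unfold pt; fun_prop

lemma Pf_eq (u t : ℝ) : Pool.Agent.U398.MV.Pf u t = ∑' n, pt u t n := rfl

lemma Pf_cont : Continuous fun p : ℝ × ℝ => Pool.Agent.U398.MV.Pf p.1 p.2 := by
  rw [continuous_iff_continuousAt]
  intro p
  set R := |p.1| + 1 with hR
  have hopen : IsOpen {q : ℝ × ℝ | |q.1| < R} := by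
    apply isOpen_lt _ continuous_const
    fun_prop
  have hmem : p ∈ {q : ℝ × ℝ | |q.1| < R} := by
    show |p.1| < R
    linarith
  have h : ContinuousOn (fun q : ℝ × ℝ => ∑' n, pt q.1 q.2 n) {q : ℝ × ℝ | |q.1| < R} := by
    apply continuousOn_tsum (u := fun n : ℕ => Real.exp ((R + 2) ^ 2 / 2) * (1 / (n : ℝ) ^ (3 / 2 : ℝ)))
    · intro n; exact (pt_cont n).continuousOn
    · exact rpow_summable.mul_left _
    · intro n q hq
      rw [pt_norm]
      exact aa_crude (by rw [hR]; positivity) (le_of_lt hq) n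
  exact h.continuousAt (hopen.mem_nhds hmem)

lemma Vp_eq (u : ℝ) : Pool.Agent.U398.MV.Vp u = ∑' n, aa u n ^ 2 := by
  unfold Pool.Agent.U398.MV.Vp
  congr 1
  ext n
  rw [aa_sq]

lemma asq_summable (u : ℝ) : Summable fun n => aa u n ^ 2 := by
  have h1 : ∀ n, aa u n ≤ ∑' k, aa u k := fun n => (aa_summable u).le_tsum n (fun k _ => aa_nonneg u k)
  apply Summable.of_nonneg_of_le (fun n => sq_nonneg _) (fun n => ?_) ((aa_summable u).mul_left (∑' k, aa u k))
  rw [sq]
  exact mul_le_mul_of_nonneg_right (h1 n) (aa_nonneg u n)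

lemma Vp_cont : Continuous Pool.Agent.U398.MV.Vp := by
  rw [continuous_iff_continuousAt]
  intro p
  set R := |p| + 1 with hR
  have hR0 : 0 ≤ R := by rw [hR]; positivity
  have hopen : IsOpen {q : ℝ | |q| < R} := isOpen_lt (by fun_prop) continuous_const
  have hmem : p ∈ {q : ℝ | |q| < R} := by
    show |p| < R
    linarith
  have hb : ∀ n : ℕ, 1 / (n : ℝ) ^ (3 / 2 : ℝ) ≤ 1 := by
    intro n
    rcases Nat.eq_zero_or_pos n with rfl | hn
    · rw [Nat.cast_zero, Real.zero_rpow (by norm_num)]; norm_num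
    · have : (1 : ℝ) ≤ n := by exact_mod_cast hn
      rw [div_le_one (by positivity)]
      exact Real.one_le_rpow this (by norm_num)
  have h : ContinuousOn (fun q : ℝ => ∑' n, aa q n ^ 2) {q : ℝ | |q| < R} := by
    apply continuousOn_tsum (u := fun n : ℕ =>
      Real.exp ((R + 2) ^ 2 / 2) ^ 2 * (1 / (n : ℝ) ^ (3 / 2 : ℝ)))
    · intro n; exact ((aa_cont n).pow 2).continuousOn
    · exact rpow_summable.mul_left _
    · intro n q hq
      rw [Real.norm_of_nonneg (sq_nonneg _)]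
      have h1 := aa_crude hR0 (le_of_lt hq) n
      have h2 := hb n
      have h3 : 0 ≤ 1 / (n : ℝ) ^ (3 / 2 : ℝ) := by positivity
      calc aa q n ^ 2 ≤ (Real.exp ((R + 2) ^ 2 / 2) * (1 / (n : ℝ) ^ (3 / 2 : ℝ))) ^ 2 := by
            have := aa_nonneg q n
            gcongr
        _ = Real.exp ((R + 2) ^ 2 / 2) ^ 2 *
              ((1 / (n : ℝ) ^ (3 / 2 : ℝ)) * (1 / (n : ℝ) ^ (3 / 2 : ℝ))) := by ring
        _ ≤ Real.exp ((R + 2) ^ 2 / 2) ^ 2 * (1 * (1 / (n : ℝ) ^ (3 / 2 : ℝ))) := by gcongr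
        _ = _ := by ring
  have h' : ContinuousOn Pool.Agent.U398.MV.Vp {q : ℝ | |q| < R} := by
    apply h.congr
    intro q _
    exact Vp_eq q
  exact h'.continuousAt (hopen.mem_nhds hmem)

lemma Vp_nonneg (u : ℝ) : 0 ≤ Pool.Agent.U398.MV.Vp u := by
  rw [Vp_eq]; exact tsum_nonneg fun n => sq_nonneg _

lemma Vp_le {u : ℝ} (hu : 0 ≤ u) : Pool.Agent.U398.MV.Vp u ≤ Real.exp 1 * (4 * K0) * (1 + u) := by
  rw [Vp_eq]
  calc ∑' n, aa u n ^ 2 ≤ ∑' n, Real.exp 1 * (1 + u) * EE u n :=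
        (asq_summable u).tsum_le_tsum (aa_sq_le hu) ((EE_summable u).mul_left _)
    _ = Real.exp 1 * (1 + u) * ∑' n, EE u n := tsum_mul_left
    _ ≤ Real.exp 1 * (1 + u) * (4 * K0) := mul_le_mul_of_nonneg_left (EE_tsum u) (by positivity)
    _ = _ := by ring

/-! ## The mean value -/

lemma cos_int {y : ℝ} (hy : y ≠ 0) (A B : ℝ) : |∫ t in A..B, Real.cos (t * y)| ≤ 2 / |y| := by
  have h : ∫ t in A..B, Real.cos (t * y) = (Real.sin (B * y) - Real.sin (A * y)) / y := by
    rw [intervalIntegral.integral_comp_mul_right (fun t => Real.cos t) hy, integral_cos, smul_eq_mul]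
    field_simp
  rw [h, abs_div]
  apply div_le_div_of_nonneg_right _ (abs_nonneg y)
  have h1 := Real.abs_sin_le_one (B * y)
  have h2 := Real.abs_sin_le_one (A * y)
  calc |Real.sin (B * y) - Real.sin (A * y)| ≤ |Real.sin (B * y)| + |Real.sin (A * y)| := abs_sub _ _
    _ ≤ 2 := by linarith

lemma log_sep {m n : ℕ} (hm : 1 ≤ m) (hn : 1 ≤ n) (hmn : m ≠ n) :
    2 / |Real.log m - Real.log n| ≤ 2 * (m + n) := by
  have key : ∀ m n : ℕ, 1 ≤ m → 1 ≤ n → n < m → 2 / |Real.log m - Real.log n| ≤ 2 * (m + n) := by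
    intro m n hm hn hlt
    have hm' : (1 : ℝ) ≤ m := by exact_mod_cast hm
    have hn' : (1 : ℝ) ≤ n := by exact_mod_cast hn
    have hlt' : (n : ℝ) + 1 ≤ m := by exact_mod_cast hlt
    have hr : 0 < (m : ℝ) / n := by positivity
    have h1 := Real.one_sub_inv_le_log_of_pos hr
    rw [Real.log_div (by positivity) (by positivity), inv_div] at h1
    have h2 : 1 / (m : ℝ) ≤ 1 - n / m := by
      rw [div_le_iff₀ (by positivity)]
      have : (1 - (n : ℝ) / m) * m = m - n := by field_simp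
      rw [this]; linarith
    have h3 : 1 / (m : ℝ) ≤ Real.log m - Real.log n := h2.trans h1
    have h4 : 0 < 1 / (m : ℝ) := by positivity
    rw [abs_of_pos (lt_of_lt_of_le h4 h3), div_le_iff₀ (lt_of_lt_of_le h4 h3)]
    have h5 : (m : ℝ) * (1 / m) = 1 := by field_simp
    nlinarith [mul_le_mul_of_nonneg_left h3 (by positivity : (0 : ℝ) ≤ m),
      mul_nonneg (by positivity : (0 : ℝ) ≤ n) (le_trans h4.le h3)]
  rcases lt_or_gt_of_ne hmn with h | h
  · rw [abs_sub_comm, add_comm (m : ℝ)]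
    exact key n m hn hm h
  · exact key m n hm hn h

lemma normsq_sum (s : Finset ℕ) (a θ : ℕ → ℝ) :
    ‖∑ n ∈ s, (a n : ℂ) * cexp ((θ n : ℝ) * I)‖ ^ 2 =
      ∑ m ∈ s, ∑ n ∈ s, a m * a n * Real.cos (θ m - θ n) := by
  have hre : (∑ n ∈ s, (a n : ℂ) * cexp ((θ n : ℝ) * I)).re = ∑ n ∈ s, a n * Real.cos (θ n) := by
    rw [Complex.re_sum]
    apply Finset.sum_congr rfl
    intro n _
    rw [Complex.re_ofReal_mul, Complex.exp_ofReal_mul_I_re]
  have him : (∑ n ∈ s, (a n : ℂ) * cexp ((θ n : ℝ) * I)).im = ∑ n ∈ s, a n * Real.sin (θ n) := by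
    rw [Complex.im_sum]
    apply Finset.sum_congr rfl
    intro n _
    rw [Complex.im_ofReal_mul, Complex.exp_ofReal_mul_I_im]
  rw [← Complex.normSq_eq_norm_sq, Complex.normSq_apply, hre, him, Finset.sum_mul_sum,
    Finset.sum_mul_sum, ← Finset.sum_add_distrib]
  apply Finset.sum_congr rfl
  intro m _
  rw [← Finset.sum_add_distrib]
  apply Finset.sum_congr rfl
  intro n _
  rw [Real.cos_sub]
  ring

lemma mv_finite (u A B : ℝ) (s : Finset ℕ) :
    |(∫ t in A..B, ‖∑ n ∈ s, pt u t n‖ ^ 2) - (B - A) * ∑ n ∈ s, aa u n ^ 2| ≤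
      4 * ((∑ n ∈ s, aa u n) * ∑ n ∈ s, (n : ℝ) * aa u n) := by
  have h1 : ∀ t : ℝ, ‖∑ n ∈ s, pt u t n‖ ^ 2 =
      ∑ m ∈ s, ∑ n ∈ s, aa u m * aa u n * Real.cos (t * (Real.log n - Real.log m)) := by
    intro t
    simp_rw [pt_eq]
    rw [normsq_sum]
    apply Finset.sum_congr rfl
    intro m _
    apply Finset.sum_congr rfl
    intro n _
    congr 2
    ring
  simp_rw [h1]
  have h2 : (∫ t in A..B, ∑ m ∈ s, ∑ n ∈ s,
      aa u m * aa u n * Real.cos (t * (Real.log n - Real.log m))) =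
      ∑ m ∈ s, ∑ n ∈ s, aa u m * aa u n * ∫ t in A..B, Real.cos (t * (Real.log n - Real.log m)) := by
    rw [intervalIntegral.integral_finsetSum]
    · apply Finset.sum_congr rfl
      intro m _
      rw [intervalIntegral.integral_finsetSum]
      · apply Finset.sum_congr rfl
        intro n _
        rw [intervalIntegral.integral_const_mul]
      · intro n _
        exact (Continuous.intervalIntegrable (by fun_prop) _ _)
    · intro m _
      exact (Continuous.intervalIntegrable (by fun_prop) _ _)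
  have h3 : (B - A) * ∑ n ∈ s, aa u n ^ 2 =
      ∑ m ∈ s, ∑ n ∈ s, aa u m * aa u n * (if m = n then (B - A) else 0) := by
    rw [Finset.mul_sum]
    apply Finset.sum_congr rfl
    intro m hm
    simp only [mul_ite, mul_zero]
    rw [Finset.sum_ite_eq, if_pos hm]
    ring
  rw [h2, h3, ← Finset.sum_sub_distrib]
  have h4 : ∀ m n : ℕ, |aa u m * aa u n * (∫ t in A..B, Real.cos (t * (Real.log n - Real.log m))) -
      aa u m * aa u n * (if m = n then (B - A) else 0)| ≤ aa u m * aa u n * (2 * (m + n)) := by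
    intro m n
    have hp : 0 ≤ aa u m * aa u n := mul_nonneg (aa_nonneg u m) (aa_nonneg u n)
    rcases Nat.eq_zero_or_pos m with rfl | hm
    · rw [aa_zero]; simp
    rcases Nat.eq_zero_or_pos n with rfl | hn
    · rw [aa_zero]; simp
    rw [← mul_sub, abs_mul, abs_of_nonneg hp]
    apply mul_le_mul_of_nonneg_left _ hp
    by_cases hmn : m = n
    · subst hmn
      simp
    · rw [if_neg hmn, sub_zero]
      have hne : Real.log n - Real.log m ≠ 0 := by
        intro h0
        have h5 : Real.log n = Real.log m := by linarith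
        have h6 := Real.log_injOn_pos (Set.mem_Ioi.mpr (by exact_mod_cast hn : (0 : ℝ) < n))
          (Set.mem_Ioi.mpr (by exact_mod_cast hm : (0 : ℝ) < m)) h5
        exact hmn (by exact_mod_cast h6.symm)
      refine (cos_int hne A B).trans ?_
      have := log_sep hn hm (Ne.symm hmn)
      rw [add_comm (m : ℝ)]
      exact this
  calc |∑ m ∈ s, ((∑ n ∈ s, aa u m * aa u n * ∫ t in A..B, Real.cos (t * (Real.log n - Real.log m))) -
          ∑ n ∈ s, aa u m * aa u n * (if m = n then (B - A) else 0))|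
      ≤ ∑ m ∈ s, ∑ n ∈ s, aa u m * aa u n * (2 * (m + n)) := by
        refine (Finset.abs_sum_le_sum_abs _ _).trans (Finset.sum_le_sum fun m _ => ?_)
        rw [← Finset.sum_sub_distrib]
        exact (Finset.abs_sum_le_sum_abs _ _).trans (Finset.sum_le_sum fun n _ => h4 m n)
    _ = 4 * ((∑ n ∈ s, aa u n) * ∑ n ∈ s, (n : ℝ) * aa u n) := by
        have h5 : ∑ m ∈ s, ∑ n ∈ s, aa u m * aa u n * (2 * ((m : ℝ) + n)) =
            2 * ((∑ n ∈ s, (n : ℝ) * aa u n) * ∑ n ∈ s, aa u n) +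
            2 * ((∑ n ∈ s, aa u n) * ∑ n ∈ s, (n : ℝ) * aa u n) := by
          rw [Finset.sum_mul_sum, Finset.sum_mul_sum, Finset.mul_sum, Finset.mul_sum,
            ← Finset.sum_add_distrib]
          apply Finset.sum_congr rfl
          intro m _
          rw [Finset.mul_sum, Finset.mul_sum, ← Finset.sum_add_distrib]
          apply Finset.sum_congr rfl
          intro n _
          ring
        rw [h5]
        ring

lemma mv (u A B : ℝ) :
    |(∫ t in A..B, ‖Pool.Agent.U398.MV.Pf u t‖ ^ 2) - (B - A) * Pool.Agent.U398.MV.Vp u| ≤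
      4 * ((∑' n, aa u n) * ∑' n : ℕ, (n : ℝ) * aa u n) := by
  have hs : ∀ t, Summable (pt u t) := fun t =>
    Summable.of_norm (by simp_rw [pt_norm]; exact aa_summable u)
  have h1 : Tendsto (fun N : ℕ => ∫ t in A..B, ‖∑ n ∈ Finset.range N, pt u t n‖ ^ 2) atTop
      (𝓝 (∫ t in A..B, ‖Pool.Agent.U398.MV.Pf u t‖ ^ 2)) := by
    apply intervalIntegral.tendsto_integral_filter_of_dominated_convergence
      (bound := fun _ => (∑' n, aa u n) ^ 2)
    · refine Eventually.of_forall fun N => ?_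
      apply Continuous.aestronglyMeasurable
      have : ∀ n, Continuous fun t : ℝ => pt u t n := fun n => by unfold pt; fun_prop
      fun_prop
    · refine Eventually.of_forall fun N => Eventually.of_forall fun t _ => ?_
      rw [Real.norm_of_nonneg (by positivity)]
      have h2 : ‖∑ n ∈ Finset.range N, pt u t n‖ ≤ ∑' n, aa u n := by
        refine (norm_sum_le _ _).trans ?_
        simp_rw [pt_norm]
        exact (aa_summable u).sum_le_tsum _ (fun n _ => aa_nonneg u n)
      gcongr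
    · exact intervalIntegrable_const
    · refine Eventually.of_forall fun t _ => ?_
      rw [Pf_eq]
      exact ((hs t).hasSum.tendsto_sum_nat.norm).pow 2
  have h2 : Tendsto (fun N : ℕ => (B - A) * ∑ n ∈ Finset.range N, aa u n ^ 2) atTop
      (𝓝 ((B - A) * Pool.Agent.U398.MV.Vp u)) := by
    rw [Vp_eq]
    exact ((asq_summable u).hasSum.tendsto_sum_nat).const_mul _
  have h3 := (h1.sub h2).abs
  refine le_of_tendsto h3 (Eventually.of_forall fun N => ?_)
  refine (mv_finite u A B (Finset.range N)).trans ?_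
  have h4 := (aa_summable u).sum_le_tsum (Finset.range N) (fun n _ => aa_nonneg u n)
  have h5 := (naa_summable u).sum_le_tsum (Finset.range N)
    (fun n _ => mul_nonneg (Nat.cast_nonneg n) (aa_nonneg u n))
  have h6 : 0 ≤ ∑ n ∈ Finset.range N, (n : ℝ) * aa u n :=
    Finset.sum_nonneg fun n _ => mul_nonneg (Nat.cast_nonneg n) (aa_nonneg u n)
  have h7 : 0 ≤ ∑' n, aa u n := tsum_nonneg (aa_nonneg u)
  gcongr

theorem t_PP : Pool.Agent.U398.MV.S_PP := by
  set C2 : ℝ := Real.exp 1 * (4 * K0) with hC2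
  set C3 : ℝ := Real.exp (9 / 8) * (4 * K0) with hC3
  set C4 : ℝ := Real.exp (25 / 8) * (4 * K0) with hC4
  have hK := K0_pos
  have hC20 : 0 < C2 := by positivity
  have hC30 : 0 < C3 := by positivity
  have hC40 : 0 < C4 := by positivity
  refine ⟨4 * C2 + 4 * (C3 * C4), 100, by positivity, le_refl _, Vp_cont, Pf_cont, Vp_nonneg, ?_, ?_⟩
  · intro u hu
    refine (Vp_le hu).trans ?_
    rw [← hC2]
    have h1 : 0 ≤ (3 * C2 + 4 * (C3 * C4)) * (1 + u) := by positivity
    linarith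
  · intro T hT u hu huL
    have hT0 : 0 < T := by linarith
    have hsT : 0 < Real.sqrt T := Real.sqrt_pos.mpr hT0
    have hsq : Real.sqrt T * Real.sqrt T = T := Real.mul_self_sqrt hT0.le
    have hlog1 : Real.log T = 2 * Real.log (Real.sqrt T) := by
      rw [Real.log_sqrt hT0.le]; ring
    have hlog2 : Real.log (Real.sqrt T) ≤ Real.sqrt T - 1 := Real.log_le_sub_one_of_pos hsT
    have hlog0 : 0 ≤ Real.log T := Real.log_nonneg (by linarith)
    have h1 := mv u (T + Real.log T) (2 * T - Real.log T)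
    have h2 := aa_tsum u
    have h3 := naa_tsum u
    have h20 : 0 ≤ ∑' n, aa u n := tsum_nonneg (aa_nonneg u)
    have h30 : 0 ≤ ∑' n : ℕ, (n : ℝ) * aa u n :=
      tsum_nonneg fun n => mul_nonneg (Nat.cast_nonneg n) (aa_nonneg u n)
    have h4 : (∑' n, aa u n) * ∑' n : ℕ, (n : ℝ) * aa u n ≤ C3 * C4 * T := by
      calc (∑' n, aa u n) * ∑' n : ℕ, (n : ℝ) * aa u n
          ≤ (Real.exp (9 / 8) * Real.exp (u / 2) * (4 * K0)) *
            (Real.exp (25 / 8) * Real.exp (3 * u / 2) * (4 * K0)) := by gcongr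
        _ = C3 * C4 * (Real.exp (u / 2) * Real.exp (3 * u / 2)) := by rw [hC3, hC4]; ring
        _ ≤ C3 * C4 * T := by
            apply mul_le_mul_of_nonneg_left _ (by positivity)
            rw [← Real.exp_add]
            calc Real.exp (u / 2 + 3 * u / 2) ≤ Real.exp (Real.log T) := by
                  apply Real.exp_le_exp.mpr; linarith
              _ = T := Real.exp_log hT0
    have h5 := Vp_le hu
    rw [← hC2] at h5
    have h50 := Vp_nonneg u
    have h6 : 2 * Real.log T * Pool.Agent.U398.MV.Vp u ≤ 4 * C2 * T := by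
      have h7 : 1 + u ≤ Real.sqrt T := by linarith
      have h8 : Real.log T ≤ 2 * Real.sqrt T := by linarith
      calc 2 * Real.log T * Pool.Agent.U398.MV.Vp u
          ≤ 2 * (2 * Real.sqrt T) * (C2 * Real.sqrt T) := by
            apply mul_le_mul (by linarith) (h5.trans _) h50 (by positivity)
            exact mul_le_mul_of_nonneg_left h7 hC20.le
        _ = 4 * C2 * (Real.sqrt T * Real.sqrt T) := by ring
        _ = 4 * C2 * T := by rw [hsq]
    have h60 : 0 ≤ 2 * Real.log T * Pool.Agent.U398.MV.Vp u := by positivity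
    have h9 : (2 * T - Real.log T - (T + Real.log T)) * Pool.Agent.U398.MV.Vp u =
        T * Pool.Agent.U398.MV.Vp u - 2 * Real.log T * Pool.Agent.U398.MV.Vp u := by ring
    rw [h9] at h1
    rw [abs_le] at h1 ⊢
    constructor <;> nlinarith [h1.1, h1.2, h4, h6, h60]

end

end Pool.Agent.U139.MV.PP
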